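import Pool.Agent.helper64.Screw

/-!
# The Homogeneity Conjecture fails for Finsler manifolds

On `ℝ³` consider the Finsler function
`F((x, y, z); (a, b, c)) = ((a² + b² + c²)² + (a cos z + b sin z)² c²) ^ (1/4)`.
It is a left invariant, reversible Finsler metric on the universal covering of the group of motions
of the Euclidean plane, hence homogeneous. All horizontal translations have constant displacement,
but the quotient by an infinite cyclic group of horizontal translations is not homogeneous.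
-/

open scoped Manifold ContDiff ENNReal
open MulAction

namespace Pool.Agent.Results.MP_6fe59b_gt.FinslerCounterexample

open Pool.Agent.H64

/-- **The Homogeneity Conjecture for homogeneous Finsler manifolds is false.**
There are a homogeneous (and reversible) Finsler metric `F` on `ℝ³`, namely
`F((x, y, z); (a, b, c)) = ((a² + b² + c²)² + (a cos z + b sin z)² c²) ^ (1/4)`, and a group `Γ` of
bijections of `ℝ³`, namely the infinite cyclic group of translations generated by
`v ↦ v + (1, 0, 0)`, acting by isometries of `F`, freely and properly discontinuously, such that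
every element of `Γ` has constant displacement, while the quotient manifold `Γ \ ℝ³` with the
induced Finsler metric `F'` is not homogeneous. -/
theorem result :
    ∃ (F : FinslerMetric 𝓘(ℝ, ℝ × ℝ × ℝ) (ℝ × ℝ × ℝ))
      (Γ : Subgroup (Equiv.Perm (ℝ × ℝ × ℝ)))
      (_ : ContinuousConstSMul Γ (ℝ × ℝ × ℝ))
      (_ : ProperlyDiscontinuousSMul Γ (ℝ × ℝ × ℝ))
      (_ : IsCancelSMul Γ (ℝ × ℝ × ℝ))
      (_ : IsManifold 𝓘(ℝ, ℝ × ℝ × ℝ) ∞ (orbitRel.Quotient Γ (ℝ × ℝ × ℝ)))
      (F' : FinslerMetric 𝓘(ℝ, ℝ × ℝ × ℝ) (orbitRel.Quotient Γ (ℝ × ℝ × ℝ))),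
      (∀ x y z a b c : ℝ, F.F ⟨((x, y, z) : ℝ × ℝ × ℝ), ((a, b, c) : ℝ × ℝ × ℝ)⟩ =
        √(√((a ^ 2 + b ^ 2 + c ^ 2) ^ 2 + (a * Real.cos z + b * Real.sin z) ^ 2 * c ^ 2))) ∧
      Γ = Subgroup.zpowers (Equiv.addRight ((1, 0, 0) : ℝ × ℝ × ℝ)) ∧
      F.IsHomogeneous ∧
      (∀ (x : ℝ × ℝ × ℝ) (v : TangentSpace 𝓘(ℝ, ℝ × ℝ × ℝ) x), F.F ⟨x, -v⟩ = F.F ⟨x, v⟩) ∧
      (∀ γ ∈ Γ, F.IsIsometry γ) ∧
      (∀ γ ∈ Γ, F.HasConstantDisplacement γ) ∧
      F.IsInducedOnQuotient F' ∧
      ¬ F'.IsHomogeneous := by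
  refine ⟨quarticMetric, Γ, inferInstance, inferInstance, inferInstance, inferInstance, quotMetric,
    fun _ _ _ _ _ _ => rfl, rfl,
    quarticMetric_isHomogeneous, ?_, fun γ hγ => Γ_isometry ⟨γ, hγ⟩,
    fun γ hγ => Γ_constantDisplacement ⟨γ, hγ⟩,
    ⟨proj_isLocalDiffeomorph Γ_smoothAct, quotMetric_tangentMap⟩, quotMetric_not_isHomogeneous⟩
  intro x v
  exact quarticFun_neg x v

end Pool.Agent.Results.MP_6fe59b_gt.FinslerCounterexample
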